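import Mathlib
import Pool.Agent.helper6.EV.Spec

/-!
Project ev (MP_5a4a8e_nt), module PW: prime powers.
-/

set_option autoImplicit false

namespace Pool.Agent.EV

open N1f72dd46 Filter MeasureTheory Complex Metric Pool.Agent.helper6.LD

/-- `Λ(n) n^(-2/3)` for `n` not prime -/
noncomputable def PW_F0 (n : ℕ) : ℝ :=
  (if n.Prime then 0 else ArithmeticFunction.vonMangoldt n) * (n : ℝ) ^ (-(2 / 3) : ℝ)

noncomputable def PW_F1 (pk : Nat.Primes × ℕ) : ℝ := PW_F0 (pk.1 ^ (pk.2 + 1))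

noncomputable def PW_F2 : Nat.Primes × ℕ → ℝ := PW_F1 ∘ (Prod.map _root_.id (· + 1))

theorem PW_F0_nonneg (n : ℕ) : 0 ≤ PW_F0 n := by
  unfold PW_F0
  have h := ArithmeticFunction.vonMangoldt_nonneg (n := n)
  refine mul_nonneg ?_ (Real.rpow_nonneg n.cast_nonneg _)
  split_ifs
  · exact le_rfl
  · exact h

theorem PW_F2_le (p : Nat.Primes) (k : ℕ) :
    PW_F2 (p, k) ≤ (6 * (p : ℝ) ^ (-(7 / 6) : ℝ)) * ((2 : ℝ) ^ (-(2 / 3) : ℝ)) ^ k := by
  have hp : (0 : ℝ) < (p : ℕ) := by exact_mod_cast p.prop.pos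
  have hp2 : (2 : ℝ) ≤ (p : ℕ) := by exact_mod_cast p.prop.two_le
  have h1 : PW_F2 (p, k) = Real.log p * (((p : ℕ) : ℝ) ^ (k + 2)) ^ (-(2 / 3) : ℝ) := by
    simp only [PW_F2, Function.comp_apply, PW_F1, PW_F0, Prod.map_apply, id_eq,
      le_add_iff_nonneg_left, zero_le, Nat.Prime.not_prime_pow, if_false,
      ArithmeticFunction.vonMangoldt_apply_prime p.prop,
      ArithmeticFunction.vonMangoldt_apply_pow (Nat.zero_ne_add_one _).symm, Nat.cast_pow]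
  rw [h1]
  have h2 : (((p : ℕ) : ℝ) ^ (k + 2)) ^ (-(2 / 3) : ℝ) =
      (((p : ℕ) : ℝ) ^ (-(2 / 3) : ℝ)) ^ k * ((p : ℕ) : ℝ) ^ (-(4 / 3) : ℝ) := by
    rw [← Real.rpow_natCast, ← Real.rpow_natCast, ← Real.rpow_mul hp.le, ← Real.rpow_mul hp.le,
      ← Real.rpow_add hp]
    congr 1
    push_cast
    ring
  rw [h2]
  have h3 : Real.log p ≤ 6 * ((p : ℕ) : ℝ) ^ (1 / 6 : ℝ) := by
    have := Real.log_le_rpow_div hp.le (by norm_num : (0 : ℝ) < 1 / 6)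
    calc Real.log p ≤ ((p : ℕ) : ℝ) ^ (1 / 6 : ℝ) / (1 / 6) := this
      _ = 6 * ((p : ℕ) : ℝ) ^ (1 / 6 : ℝ) := by ring
  have h4 : (((p : ℕ) : ℝ) ^ (-(2 / 3) : ℝ)) ^ k ≤ ((2 : ℝ) ^ (-(2 / 3) : ℝ)) ^ k := by
    refine pow_le_pow_left₀ (Real.rpow_nonneg hp.le _) ?_ k
    exact Real.rpow_le_rpow_of_nonpos (by norm_num) hp2 (by norm_num)
  have h5 : (6 * ((p : ℕ) : ℝ) ^ (1 / 6 : ℝ)) * ((p : ℕ) : ℝ) ^ (-(4 / 3) : ℝ) =
      6 * ((p : ℕ) : ℝ) ^ (-(7 / 6) : ℝ) := by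
    rw [mul_assoc, ← Real.rpow_add hp]
    norm_num
  have h6 : 0 ≤ Real.log p := Real.log_nonneg (by linarith)
  calc Real.log p * ((((p : ℕ) : ℝ) ^ (-(2 / 3) : ℝ)) ^ k * ((p : ℕ) : ℝ) ^ (-(4 / 3) : ℝ))
      ≤ (6 * ((p : ℕ) : ℝ) ^ (1 / 6 : ℝ)) *
        (((2 : ℝ) ^ (-(2 / 3) : ℝ)) ^ k * ((p : ℕ) : ℝ) ^ (-(4 / 3) : ℝ)) := by
        gcongr
    _ = ((6 * ((p : ℕ) : ℝ) ^ (1 / 6 : ℝ)) * ((p : ℕ) : ℝ) ^ (-(4 / 3) : ℝ)) *
        ((2 : ℝ) ^ (-(2 / 3) : ℝ)) ^ k := by ring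
    _ = _ := by rw [h5]

theorem PW_F2_summable : Summable PW_F2 := by
  have h1 : Summable (fun p : Nat.Primes => 6 * ((p : ℕ) : ℝ) ^ (-(7 / 6) : ℝ)) :=
    (Nat.Primes.summable_rpow.mpr (by norm_num)).mul_left 6
  have h2 : Summable (fun k : ℕ => ((2 : ℝ) ^ (-(2 / 3) : ℝ)) ^ k) := by
    refine summable_geometric_of_lt_one (by positivity) ?_
    exact Real.rpow_lt_one_of_one_lt_of_neg (by norm_num) (by norm_num)
  have h3 := h1.mul_of_nonneg h2 (fun p => by positivity) (fun k => by positivity)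
  refine h3.of_nonneg_of_le (fun pk => ?_) (fun pk => PW_F2_le pk.1 pk.2)
  exact PW_F0_nonneg _

theorem PW_F0_summable : Summable PW_F0 := by
  have hF₀ (p : Nat.Primes) : PW_F0 p.val = 0 := by
    simp only [p.prop, if_true, zero_mul, PW_F0]
  refine (summable_subtype_iff_indicator (s := {n | IsPrimePow n}).mp ?_).congr
      fun n ↦ Set.indicator_apply_eq_self.mpr fun (hn : ¬ IsPrimePow n) ↦ ?_
  swap
  · have h0 : ArithmeticFunction.vonMangoldt n = 0 :=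
      ArithmeticFunction.vonMangoldt_eq_zero_iff.2 hn
    unfold PW_F0
    rw [h0]
    simp
  have hFF' :
      PW_F0 ∘ Subtype.val (p := fun n ↦ n ∈ {n | IsPrimePow n}) =
        PW_F1 ∘ ⇑Nat.Primes.prodNatEquiv.symm := by
    refine (Equiv.eq_comp_symm Nat.Primes.prodNatEquiv (PW_F0 ∘ Subtype.val) PW_F1).mpr ?_
    ext1 n
    simp only [Function.comp_apply, PW_F1]
    congr
  rw [hFF']
  refine (Nat.Primes.prodNatEquiv.symm.summable_iff (f := PW_F1)).mpr ?_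
  have hF'₀ (p : Nat.Primes) : PW_F1 (p, 0) = 0 := by
    simp only [zero_add, pow_one, hF₀, PW_F1]
  have hF'₁ : PW_F2 = PW_F1 ∘ (Prod.map _root_.id (· + 1)) := rfl
  refine (Function.Injective.summable_iff ?_ fun u hu ↦ ?_).mp <| hF'₁ ▸ PW_F2_summable
  · exact Function.Injective.prodMap (fun ⦃a₁ a₂⦄ a ↦ a) <| add_left_injective 1
  · simp only [Set.range_prodMap, Set.range_id, Set.mem_prod, Set.mem_univ, Set.mem_range,
      Nat.exists_add_one_eq, true_and, not_lt, nonpos_iff_eq_zero] at hu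
    rw [← hF'₀ u.1, ← hu]

/-- the term -/
noncomputable def PW_a (t : ℝ) (k n : ℕ) : ℂ := (wt 4 k n : ℂ) * (n : ℂ) ^ (-(t * I))

theorem PW_norm (t : ℝ) (k n : ℕ) : ‖PW_a t k n‖ = wt 4 k n := by
  unfold PW_a
  have h0 : 0 ≤ wt 4 k n := by
    unfold wt
    have h := ArithmeticFunction.vonMangoldt_nonneg (n := n)
    have h2 : 0 ≤ Real.log n := Real.log_natCast_nonneg n
    positivity
  rcases Nat.eq_zero_or_pos n with rfl | hn
  · have h1 : wt 4 k 0 = 0 := by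
      unfold wt
      simp
    rw [h1]
    simp
  · rw [norm_mul, Complex.norm_natCast_cpow_of_pos hn]
    have h1 : (-(↑t * I) : ℂ).re = 0 := by simp
    rw [h1, Real.rpow_zero, mul_one, Complex.norm_real, Real.norm_of_nonneg h0]

theorem PW_le (j n : ℕ) (x : ℝ) (hx : 0 < x) (hn : 0 < n) :
    Real.log n ^ j / j.factorial ≤ (n : ℝ) ^ x / x ^ j := by
  have hnp : (0 : ℝ) < n := by exact_mod_cast hn
  have h1 := Real.pow_div_factorial_le_exp (x * Real.log n)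
    (mul_nonneg hx.le (Real.log_natCast_nonneg n)) j
  have h2 : Real.exp (x * Real.log n) = (n : ℝ) ^ x := by
    rw [Real.rpow_def_of_pos hnp, mul_comm]
  rw [h2, mul_pow] at h1
  have hxj : 0 < x ^ j := by positivity
  rw [le_div_iff₀ hxj]
  calc Real.log n ^ j / j.factorial * x ^ j = x ^ j * Real.log n ^ j / j.factorial := by ring
    _ ≤ (n : ℝ) ^ x := h1

theorem PW_nonprime (t : ℝ) (k n : ℕ) (hn : ¬ n.Prime) :
    ‖PW_a t k n‖ ≤ ((10 / 3 : ℝ) ^ (k - 1))⁻¹ * PW_F0 n := by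
  rw [PW_norm]
  rcases Nat.eq_zero_or_pos n with rfl | hp
  · have h1 : wt 4 k 0 = 0 := by
      unfold wt
      simp
    rw [h1]
    exact mul_nonneg (by positivity) (PW_F0_nonneg 0)
  · have hnp : (0 : ℝ) < n := by exact_mod_cast hp
    unfold wt PW_F0
    rw [if_neg hn]
    have h := ArithmeticFunction.vonMangoldt_nonneg (n := n)
    have h1 := PW_le (k - 1) n (10 / 3) (by norm_num) hp
    have h2 : (n : ℝ) ^ (-(2 / 3) : ℝ) = (n : ℝ) ^ (10 / 3 : ℝ) * (n : ℝ) ^ (-4 : ℝ) := by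
      rw [← Real.rpow_add hnp]
      norm_num
    rw [h2]
    calc ArithmeticFunction.vonMangoldt n * Real.log n ^ (k - 1) / (k - 1).factorial *
          (n : ℝ) ^ (-4 : ℝ)
        = ArithmeticFunction.vonMangoldt n * (Real.log n ^ (k - 1) / (k - 1).factorial) *
          (n : ℝ) ^ (-4 : ℝ) := by ring
      _ ≤ ArithmeticFunction.vonMangoldt n * ((n : ℝ) ^ (10 / 3 : ℝ) / (10 / 3) ^ (k - 1)) *
          (n : ℝ) ^ (-4 : ℝ) := by gcongr
      _ = _ := by ring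

theorem PW_term (t : ℝ) (k : ℕ) (hk : 1 ≤ k) (p : Nat.Primes) :
    (k : ℂ) * ((Real.log (p : ℕ) : ℂ) ^ k / (k.factorial : ℂ) * ((p : ℕ) : ℂ) ^ (-(s4 t))) =
      PW_a t k p := by
  have hp : (0 : ℝ) < (p : ℕ) := by exact_mod_cast p.prop.pos
  have hp0 : (((p : ℕ) : ℂ)) ≠ 0 := by
    exact_mod_cast p.prop.ne_zero
  unfold PW_a wt
  rw [ArithmeticFunction.vonMangoldt_apply_prime p.prop]
  have h1 : ((p : ℕ) : ℂ) ^ (-(s4 t)) =
      (((((p : ℕ) : ℝ) ^ (-4 : ℝ) : ℝ)) : ℂ) * ((p : ℕ) : ℂ) ^ (-(t * I)) := by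
    have h2 : (-(s4 t)) = ((-4 : ℝ) : ℂ) + (-(t * I)) := by
      unfold s4
      push_cast
      ring
    rw [h2, Complex.cpow_add _ _ hp0]
    congr 1
    rw [Complex.ofReal_cpow hp.le]
    push_cast
    rfl
  rw [h1]
  obtain ⟨j, rfl⟩ : ∃ j, k = j + 1 := ⟨k - 1, by omega⟩
  have h3 : ((j + 1).factorial : ℂ) = (j + 1 : ℂ) * (j.factorial : ℂ) := by
    rw [Nat.factorial_succ]
    push_cast
    ring
  have h4 : ((j : ℂ) + 1) ≠ 0 := by exact_mod_cast Nat.succ_ne_zero j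
  have h5 : (j.factorial : ℂ) ≠ 0 := by exact_mod_cast j.factorial_ne_zero
  rw [h3, Nat.add_sub_cancel]
  push_cast
  field_simp
  ring

theorem PW_prime_summable (t : ℝ) (k : ℕ) (hk : 1 ≤ k) :
    Summable (fun p : Nat.Primes => PW_a t k p) := by
  have h1 : Summable (fun p : Nat.Primes => (k : ℝ) * ((p : ℕ) : ℝ) ^ (-3 : ℝ)) :=
    (Nat.Primes.summable_rpow.mpr (by norm_num)).mul_left _
  refine Summable.of_norm_bounded h1 ?_
  intro p
  have hp : (0 : ℝ) < (p : ℕ) := by exact_mod_cast p.prop.pos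
  rw [PW_norm]
  unfold wt
  rw [ArithmeticFunction.vonMangoldt_apply_prime p.prop]
  obtain ⟨j, rfl⟩ : ∃ j, k = j + 1 := ⟨k - 1, by omega⟩
  rw [Nat.add_sub_cancel]
  have h2 := PW_le (j + 1) p 1 one_pos p.prop.pos
  rw [one_pow, div_one, Real.rpow_one] at h2
  have h3 : Real.log p * Real.log p ^ j / j.factorial =
      ((j + 1 : ℕ) : ℝ) * (Real.log p ^ (j + 1) / (j + 1).factorial) := by
    have h4 : ((j + 1).factorial : ℝ) = ((j : ℝ) + 1) * (j.factorial : ℝ) := by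
      rw [Nat.factorial_succ]
      push_cast
      ring
    have h5 : (j.factorial : ℝ) ≠ 0 := by exact_mod_cast j.factorial_ne_zero
    rw [h4]
    push_cast
    field_simp
    ring
  rw [h3]
  have h6 : ((p : ℕ) : ℝ) ^ (-3 : ℝ) = ((p : ℕ) : ℝ) * ((p : ℕ) : ℝ) ^ (-4 : ℝ) := by
    nth_rewrite 2 [← Real.rpow_one ((p : ℕ) : ℝ)]
    rw [← Real.rpow_add hp]
    norm_num
  rw [h6]
  calc ((j + 1 : ℕ) : ℝ) * (Real.log p ^ (j + 1) / (j + 1).factorial) * ((p : ℕ) : ℝ) ^ (-4 : ℝ)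
      ≤ ((j + 1 : ℕ) : ℝ) * ((p : ℕ) : ℝ) * ((p : ℕ) : ℝ) ^ (-4 : ℝ) := by gcongr
    _ = _ := by ring

theorem PW : PW_stmt := by
  classical
  refine ⟨10 / 3 * (∑' n, PW_F0 n) + 1, ?_, ?_⟩
  · have : 0 ≤ ∑' n, PW_F0 n := tsum_nonneg PW_F0_nonneg
    positivity
  intro t k hk
  have hS : 0 ≤ ∑' n, PW_F0 n := tsum_nonneg PW_F0_nonneg
  set P : Set ℕ := {p | p.Prime} with hP
  have h1 : (k : ℂ) * Bp (s4 t) k = ∑' n : ℕ, P.indicator (PW_a t k) n := by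
    unfold Bp
    rw [← tsum_mul_left, ← tsum_subtype]
    exact tsum_congr fun p => PW_term t k hk p
  have hs1 : Summable (P.indicator (PW_a t k)) := by
    rw [← summable_subtype_iff_indicator]
    exact PW_prime_summable t k hk
  have hb : ∀ n, ‖Pᶜ.indicator (PW_a t k) n‖ ≤ ((10 / 3 : ℝ) ^ (k - 1))⁻¹ * PW_F0 n := by
    intro n
    by_cases hn : n.Prime
    · rw [Set.indicator_of_notMem (by simpa [hP] using hn), norm_zero]
      exact mul_nonneg (by positivity) (PW_F0_nonneg n)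
    · rw [Set.indicator_of_mem (by simpa [hP] using hn)]
      exact PW_nonprime t k n hn
  have hsb : Summable (fun n => ((10 / 3 : ℝ) ^ (k - 1))⁻¹ * PW_F0 n) := PW_F0_summable.mul_left _
  have hs2 : Summable (Pᶜ.indicator (PW_a t k)) := Summable.of_norm_bounded hsb hb
  have h2 : ∑' n : ℕ, PW_a t k n =
      (∑' n : ℕ, P.indicator (PW_a t k) n) + ∑' n : ℕ, Pᶜ.indicator (PW_a t k) n := by
    rw [← hs1.tsum_add hs2]
    refine tsum_congr fun n => ?_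
    exact (congrFun (Set.indicator_self_add_compl P (PW_a t k)) n).symm
  have h3 : (k : ℂ) * Bp (s4 t) k - ∑' n : ℕ, (wt 4 k n : ℂ) * (n : ℂ) ^ (-(t * I)) =
      -∑' n : ℕ, Pᶜ.indicator (PW_a t k) n := by
    have h4 : ∑' n : ℕ, (wt 4 k n : ℂ) * (n : ℂ) ^ (-(t * I)) = ∑' n : ℕ, PW_a t k n := rfl
    rw [h4, h2, h1]
    ring
  rw [h3, norm_neg]
  refine (tsum_of_norm_bounded hsb.hasSum hb).trans ?_
  rw [tsum_mul_left]
  have h5 : ((10 / 3 : ℝ) ^ (k - 1))⁻¹ = 10 / 3 * ((10 / 3 : ℝ) ^ k)⁻¹ := by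
    obtain ⟨j, rfl⟩ : ∃ j, k = j + 1 := ⟨k - 1, by omega⟩
    rw [Nat.add_sub_cancel, pow_succ]
    have : ((10 / 3 : ℝ) ^ j) ≠ 0 := by positivity
    field_simp
  rw [h5]
  have h6 : 0 ≤ ((10 / 3 : ℝ) ^ k)⁻¹ := by positivity
  nlinarith

end Pool.Agent.EV
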